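import Pool.Agent.H.MP_4928aa_an.B

namespace Pool.Agent.H.MP_42c7e8_an

open Complex Filter Topology MeasureTheory Set Metric
open scoped Nat ComplexConjugate Real

lemma T2 {F : ℂ → ℂ} (hF : Differentiable ℂ F) (b : ℂ) : ∃ G : ℂ → ℂ, Continuous G ∧
    ∀ h, F (b + h) = F b + h * deriv F b + h ^ 2 * G h := by
  have d : ∀ {F : ℂ → ℂ}, Differentiable ℂ F → Differentiable ℂ (dslope F b) := fun hF =>
    differentiableOn_univ.1 ((differentiableOn_dslope univ_mem).2 hF.differentiableOn)
  refine ⟨fun h => dslope (dslope F b) b (b + h), (d (d hF)).continuous.comp (by fun_prop),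
    fun h => ?_⟩
  have e1 := sub_smul_dslope F b (b + h)
  have e2 := sub_smul_dslope (dslope F b) b (b + h)
  simp only [add_sub_cancel_left, smul_eq_mul, dslope_same] at e1 e2
  linear_combination -e1 - h * e2

lemma iball {E : Type} [NormedAddCommGroup E] {f : ℂ → E} (hf : Continuous f) (R : ℝ) :
    IntegrableOn f (ball 0 R) :=
  (hf.continuousOn.integrableOn_compact (isCompact_closedBall 0 R)).mono_set ball_subset_closedBall

/-- second moment of the disc -/
noncomputable def NN (R : ℝ) : ℝ := ∫ w in ball (0 : ℂ) R, ‖w‖ ^ 2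

lemma NN_pos {R : ℝ} (h : 0 < R) : 0 < NN R := by
  rw [NN, setIntegral_pos_iff_support_of_nonneg_ae (ae_of_all _ fun w => by positivity)
    (iball (by fun_prop) R)]
  refine IsOpen.measure_pos _ ((Continuous.isOpen_support (by fun_prop)).inter isOpen_ball)
    ⟨(R / 2 : ℝ), ?_, ?_⟩
  · simpa using h.ne'
  · simp [abs_of_pos h, h]

lemma small {ρ : ℂ → ℂ} {ε : ℂ → ℝ} (hε : Continuous ε) (h0 : ε 0 = 0)
    (h : ∀ w, ‖ρ w‖ ≤ ‖w‖ ^ 2 * ε w) :
    Tendsto (fun R => (∫ w in ball (0 : ℂ) R, ρ w) / NN R) (𝓝[>] 0) (𝓝 0) := by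
  refine NormedAddGroup.tendsto_nhds_zero.2 fun η hη => ?_
  obtain ⟨δ, hδ, h1⟩ := Metric.continuousAt_iff.1 (hε.continuousAt (x := 0)) (η / 2) (by positivity)
  filter_upwards [Ioo_mem_nhdsGT hδ] with R hR
  have := NN_pos hR.1
  rw [norm_div, Complex.norm_real, Real.norm_of_nonneg this.le, div_lt_iff₀ this]
  refine lt_of_le_of_lt (norm_integral_le_of_norm_le (g := fun w => η / 2 * ‖w‖ ^ 2)
    (iball (by fun_prop) R) ?_) ?_
  · filter_upwards [ae_restrict_mem measurableSet_ball] with w hw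
    have := h1 (ball_subset_ball hR.2.le hw)
    rw [h0, Real.dist_eq, sub_zero] at this
    refine (h w).trans ?_
    rw [mul_comm]; gcongr; exact (le_abs_self _).trans this.le
  · rw [integral_const_mul, ← NN]; nlinarith

lemma rot (e : ℂ ≃ₗᵢ[ℝ] ℂ) (f : ℂ → ℂ) (R : ℝ) :
    ∫ w in ball (0 : ℂ) R, f (e w) = ∫ w in ball (0 : ℂ) R, f w := by
  have := e.measurePreserving.setIntegral_preimage_emb e.toHomeomorph.measurableEmbedding f (ball 0 R)
  rwa [e.preimage_ball, map_zero] at this

lemma odd0 {f : ℂ → ℂ} (h : ∀ w, f (I * w) = -f w) (R : ℝ) : ∫ w in ball (0 : ℂ) R, f w = 0 := by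
  have := rot (rotation ⟨I, by simp [Submonoid.unitSphere]⟩) f R
  simp only [rotation_apply, h, integral_neg] at this
  linear_combination (-1 / 2) * this

lemma lim {k F : ℂ → ℂ} (hk : Continuous k) (hs : ∀ w, k (-w) = conj (k w)) (h0 : k 0 ≠ 0)
    (hF : Differentiable ℂ F) (H : ∀ R > 0, ∃ C : ℂ, ∀ b, C * F b =
      ∫ w in ball (0 : ℂ) R, k w * (cexp (b * conj w / 2) * F (b - 2 * π * w))) :
    ∃ l m : ℂ, ∀ b, l * F b - conj m * (b / 2) * F b - 2 * π * m * deriv F b =
      π * b * deriv F b := by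
  let T : ℂ × ℂ →ₗ[ℝ] ℂ → ℂ :=
    { toFun := fun p b => p.1 * F b - conj p.2 * (b / 2) * F b - 2 * π * p.2 * deriv F b
      map_add' := fun p q => by funext b; simp; ring
      map_smul' := fun c p => by funext b; simp; ring }
  suffices (fun b => π * b * deriv F b) ∈ LinearMap.range T by
    obtain ⟨p, hp⟩ := this
    exact ⟨p.1, p.2, congrFun hp⟩
  choose! C hC using H
  have hc : Continuous fun w : ℂ => conj w := continuous_conj
  have k0 : conj (k 0) = k 0 := by rw [← hs, neg_zero]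
  refine (LinearMap.range T).closed_of_finiteDimensional.mem_of_tendsto (b := 𝓝[>] (0 : ℝ))
    (f := fun R => T (((∫ w in ball (0 : ℂ) R, k w) - C R) / (k 0 * NN R),
      (∫ w in ball (0 : ℂ) R, k w * w) / (k 0 * NN R))) (tendsto_pi_nhds.2 fun b => ?_)
    (.of_forall fun R => ⟨_, rfl⟩)
  obtain ⟨G, cG, eG⟩ := T2 hF b
  obtain ⟨E, cE, eE⟩ := T2 differentiable_exp 0
  simp only [zero_add, exp_zero, Complex.deriv_exp, mul_one] at eE
  set P : ℂ → ℂ := fun w => k w * (4 * π ^ 2 * G (-(2 * π * w)) * cexp (b * conj w / 2))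
  set Q : ℂ → ℂ := fun w => k w * (b ^ 2 / 4 * E (b * conj w / 2) * (F b - 2 * π * w * deriv F b))
  have cP : Continuous P := by fun_prop
  have cQ : Continuous Q := by fun_prop
  set A : ℂ := -(π * b * deriv F b)
  set ρ : ℂ → ℂ := fun w => w * conj w * ((k w - k 0) * A) + w ^ 2 * (P w - P 0) +
    conj w ^ 2 * (Q w - Q 0)
  have cρ : Continuous ρ := by fun_prop
  have h1 := small (ρ := ρ) (ε := fun w => ‖(k w - k 0) * A‖ + ‖P w - P 0‖ + ‖Q w - Q 0‖)
    (by fun_prop) (by simp) fun w => by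
      refine (norm_add₃_le).trans (le_of_eq ?_)
      simp only [norm_mul, norm_pow, norm_conj]; ring
  have h2 := (h1.div_const (k 0)).const_sub (π * b * deriv F b)
  rw [zero_div, sub_zero] at h2
  refine h2.congr' ?_
  filter_upwards [self_mem_nhdsWithin] with R hR
  have n0 : (NN R : ℂ) ≠ 0 := by exact_mod_cast (NN_pos hR).ne'
  have e1 : ∀ w, k w * (cexp (b * conj w / 2) * F (b - 2 * π * w)) =
      F b * k w + b / 2 * F b * (k w * conj w) + -(2 * π * deriv F b) * (k w * w) +
      k 0 * A * (w * conj w) + P 0 * w ^ 2 + Q 0 * conj w ^ 2 + ρ w := by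
    intro w
    have := eE (b * conj w / 2)
    rw [sub_eq_add_neg b, eG]
    simp only [ρ, P, Q, A]
    linear_combination (k w * (F b - 2 * π * w * deriv F b)) * this
  have e2 := hC R hR b
  simp only [e1] at e2
  rw [integral_add (iball (by fun_prop) R) (iball cρ R),
    integral_add (iball (by fun_prop) R) (iball (by fun_prop) R),
    integral_add (iball (by fun_prop) R) (iball (by fun_prop) R),
    integral_add (iball (by fun_prop) R) (iball (by fun_prop) R),
    integral_add (iball (by fun_prop) R) (iball (by fun_prop) R),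
    integral_add (iball (by fun_prop) R) (iball (by fun_prop) R)] at e2
  simp only [integral_const_mul] at e2
  rw [odd0 (f := fun w => w ^ 2) (fun w => by simp [mul_pow]),
    odd0 (f := fun w => conj w ^ 2) (fun w => by simp [mul_pow])] at e2
  have e3 : ∫ w in ball (0 : ℂ) R, w * conj w = NN R := by
    rw [NN, ← integral_complex_ofReal]; simp [mul_conj']
  have e4 : conj (∫ w in ball (0 : ℂ) R, k w * w) = -∫ w in ball (0 : ℂ) R, k w * conj w := by
    rw [← integral_conj, ← rot (LinearIsometryEquiv.neg ℝ) fun w => k w * conj w, ← integral_neg]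
    simp [hs]
  rw [e3] at e2
  simp only [T, LinearMap.coe_mk, AddHom.coe_mk, map_div₀, map_mul, k0, conj_ofReal, e4]
  simp only [A] at e2
  field_simp
  linear_combination 2 * e2

lemma mono {G : ℂ → ℂ} (hG : Differentiable ℂ G) {ν : ℂ} (h : ∀ c, c * deriv G c = ν * G c) :
    ∃ (n : ℕ) (γ : ℂ), ∀ c, G c = γ * c ^ n := by
  have d : ∀ k, Differentiable ℂ (iteratedDeriv k G) := fun k =>
    (hG.contDiff (n := k + 1)).differentiable_iteratedDeriv k (by exact_mod_cast k.lt_succ_self)
  have h1 : ∀ (k : ℕ) c, c * iteratedDeriv (k + 1) G c = (ν - k) * iteratedDeriv k G c := by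
    intro k
    induction k with
    | zero => simpa using h
    | succ k ih =>
      intro c
      have e1 := (hasDerivAt_id c).mul (d (k + 1) c).hasDerivAt
      have e2 := (d k c).hasDerivAt.const_mul (ν - k)
      have := e1.unique (e2.congr_of_eventuallyEq (.of_forall ih))
      rw [← iteratedDeriv_succ, ← iteratedDeriv_succ] at this
      simp only [id] at this
      push_cast
      linear_combination this
  have h2 : ∀ k : ℕ, (k : ℂ) ≠ ν → iteratedDeriv k G 0 = 0 := fun k hk =>
    (mul_eq_zero.1 (by rw [← h1, zero_mul])).resolve_left (sub_ne_zero.2 hk.symm)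
  obtain ⟨n, hn⟩ : ∃ n : ℕ, ∀ k : ℕ, k ≠ n → (k : ℂ) ≠ ν := by
    by_cases e : ∃ n : ℕ, (n : ℂ) = ν
    · obtain ⟨n, rfl⟩ := e
      exact ⟨n, fun k hk => by exact_mod_cast hk⟩
    · exact ⟨0, fun k _ e' => e ⟨k, e'⟩⟩
  refine ⟨n, (n ! : ℂ)⁻¹ * iteratedDeriv n G 0, fun c => ?_⟩
  have := (hasSum_taylorSeries_of_entire hG 0 c).unique
    (hasSum_single n fun k hk => by rw [h2 k (hn k hk)]; simp)
  rw [this]; simp; ring

lemma ode {F : ℂ → ℂ} (hF : Differentiable ℂ F) {l m : ℂ}
    (h : ∀ b, l * F b - conj m * (b / 2) * F b - 2 * π * m * deriv F b = π * b * deriv F b) :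
    ∃ (n : ℕ) (γ : ℂ), ∀ b, F b = γ * (b + 2 * m) ^ n * cexp (-(conj m / (2 * π) * b)) := by
  have hπ : (π : ℂ) ≠ 0 := ofReal_ne_zero.2 Real.pi_ne_zero
  have d : ∀ c, HasDerivAt (fun c => cexp (conj m / (2 * π) * (c - 2 * m)) * F (c - 2 * m))
      (cexp (conj m / (2 * π) * (c - 2 * m)) *
        (conj m / (2 * π) * F (c - 2 * m) + deriv F (c - 2 * m))) c := fun c => by
    have e1 := (((hasDerivAt_id c).sub_const (2 * m)).const_mul (conj m / (2 * π))).cexp
    have e2 := (hF (c - 2 * m)).hasDerivAt.comp c ((hasDerivAt_id c).sub_const (2 * m))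
    refine (e1.mul e2).congr_deriv ?_
    simp; ring
  obtain ⟨n, γ, e⟩ := mono (fun c => (d c).differentiableAt) (ν := (l + conj m * m) / π) fun c => by
    rw [(d c).deriv]
    have := h (c - 2 * m)
    field_simp
    linear_combination -2 * this
  refine ⟨n, γ, fun b => ?_⟩
  have := e (b + 2 * m)
  simp only [add_sub_cancel_right] at this
  rw [← this, mul_right_comm, ← exp_add]; simp

end Pool.Agent.H.MP_42c7e8_an
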