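import Pool.Agent.H.MP_42c7e8_an.A

namespace Pool.Agent.H.MP_42c7e8_an

open Complex Filter Topology MeasureTheory Set Metric
open scoped Nat ComplexConjugate Real FourierTransform
open Pool.Agent.H.MP_4928aa_an

lemma gl {a : ℝ} (ha : 0 < a) (c : ℝ) : Integrable fun t : ℝ => Real.exp (-a * t ^ 2 + c * |t|) := by
  refine ((integrable_exp_neg_mul_sq (half_pos ha)).const_mul (Real.exp (c ^ 2 / (2 * a)))).mono'
    (Continuous.aestronglyMeasurable (by fun_prop)) (ae_of_all _ fun t => ?_)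
  rw [Real.norm_of_nonneg (Real.exp_pos _).le, ← Real.exp_add, Real.exp_le_exp, ← sq_abs t]
  have : c * |t| ≤ c ^ 2 / (2 * a) + a / 2 * |t| ^ 2 := by
    rw [div_add' _ _ _ (by positivity), le_div_iff₀ (by positivity)]
    nlinarith [sq_nonneg (c - a * |t|)]
  linarith

lemma gl2 (c : ℝ) : MemLp (fun t : ℝ => Real.exp (-π * t ^ 2 + c * |t|)) 2 volume := by
  rw [memLp_two_iff_integrable_sq (Continuous.aestronglyMeasurable (by fun_prop))]
  refine (gl (a := 2 * π) (by positivity) (2 * c)).congr (ae_of_all _ fun t => ?_)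
  simp only [← Real.exp_nat_mul]; congr 1; push_cast; ring

lemma gle (a : ℝ) {b : ℂ} {c : ℝ} (h : ‖b‖ ≤ c) (t : ℝ) (k : ℕ) :
    ‖(t : ℂ) ^ k * cexp (-a * t ^ 2 + b * t)‖ ≤ k ! * Real.exp (-a * t ^ 2 + (c + 1) * |t|) := by
  have h1 := Real.pow_div_factorial_le_exp |t| (abs_nonneg t) k
  rw [div_le_iff₀' (by positivity)] at h1
  have h2 : (-a * t ^ 2 + b * t : ℂ).re ≤ -a * t ^ 2 + c * |t| := by
    have : (b * t).re ≤ c * |t| := (re_le_norm _).trans (by
      rw [norm_mul, norm_real, Real.norm_eq_abs]; gcongr)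
    rw [add_re, show (-a * t ^ 2 : ℂ) = ((-a * t ^ 2 : ℝ) : ℂ) by push_cast; ring, ofReal_re]
    linarith
  rw [norm_mul, norm_pow, norm_real, norm_exp, Real.norm_eq_abs,
    show -a * t ^ 2 + (c + 1) * |t| = |t| + (-a * t ^ 2 + c * |t|) by ring, Real.exp_add |t|,
    ← mul_assoc]
  gcongr

/-- coherent state -/
noncomputable def gs (b : ℂ) (t : ℝ) : ℂ := cexp (-π * t ^ 2 + b * t)

lemma gs2 (b : ℂ) : MemLp (gs b) 2 volume :=
  (gl2 (‖b‖ + 1)).of_le (Continuous.aestronglyMeasurable (by unfold gs; fun_prop))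
    (ae_of_all _ fun t => by simpa [gs] using gle π le_rfl t 0)

/-- Bargmann-type transform -/
noncomputable def BB (g : ℝ → ℂ) (b : ℂ) : ℂ := ∫ t, gs b t * conj (g t)

lemma BB_int {g : ℝ → ℂ} (hg : MemLp g 2 volume) (b : ℂ) :
    Integrable fun t => gs b t * conj (g t) := (gs2 b).integrable_mul hg.star

lemma BB_diff {g : ℝ → ℂ} (hg : MemLp g 2 volume) : Differentiable ℂ (BB g) := fun b => by
  refine (hasDerivAt_integral_of_dominated_loc_of_deriv_le (ball_mem_nhds b one_pos)
    (F' := fun b (t : ℝ) => t * gs b t * conj (g t))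
    (.of_forall fun b => (BB_int hg b).1) (BB_int hg b)
    ((Continuous.aestronglyMeasurable (by unfold gs; fun_prop)).mul hg.star.1)
    (ae_of_all _ fun t x hx => ?_) ((gl2 (‖b‖ + 1 + 1)).integrable_mul hg.norm)
    (ae_of_all _ fun t x _ => ?_)).2.differentiableAt
  · rw [norm_mul, norm_conj, Pi.mul_apply]
    gcongr
    simpa [gs] using gle π (norm_le_norm_add_const_of_dist_le (mem_ball.1 hx).le) t 1
  · refine ((((hasDerivAt_id x).mul_const (t : ℂ)).const_add (-π * t ^ 2 : ℂ)).cexp.mul_const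
      (conj (g t))).congr_deriv ?_
    simp [gs]; left; ring

lemma BB_sh (g : ℝ → ℂ) (b w : ℂ) :
    ∫ t : ℝ, gs b t * conj (cexp (2 * π * I * w.im * t) * g (t - w.re)) =
      cexp (-π * w.re ^ 2 + b * w.re - 2 * π * I * w.im * w.re) * BB g (b - 2 * π * w) := by
  rw [BB, ← integral_const_mul, ← integral_add_right_eq_self _ w.re]
  congr 1; funext t
  simp only [gs, map_mul, ← exp_conj, conj_ofReal, conj_I, add_sub_cancel_right, ← mul_assoc,
    ← exp_add, map_ofNat]
  congr 2
  push_cast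
  linear_combination (-2 * π * t) * re_add_im w

/-- autocorrelation -/
noncomputable def KK (g : ℝ → ℂ) (w : ℂ) : ℂ :=
  ∫ t : ℝ, cexp (2 * π * I * w.im * t) * g (t - w.re) * conj (g t)

lemma KK_cont {g : ℝ → ℂ} (hg : MemLp g 2 volume) : Continuous (KK g) := by
  let s : ℝ → C(ℝ, ℝ) := fun x => ⟨fun t => t - x, by fun_prop⟩
  have hs : Continuous s := ContinuousMap.continuous_of_continuous_uncurry _ (by
    change Continuous fun p : ℝ × ℝ => p.2 - p.1
    fun_prop)
  have c1 := Continuous.compMeasurePreservingLp (f := fun _ : ℝ => hg.toLp) (g := s)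
    continuous_const hs (fun x => measurePreserving_sub_right volume x) (by simp)
  have c2 := (Real.Lp.fourierTransformCLM ℝ ℂ).continuous.comp
    ((((ContinuousLinearMap.mul ℂ ℂ).holderL volume 2 2 1).flip hg.star.toLp).continuous.comp c1)
  have c3 := (c2.comp continuous_re).eval continuous_im.neg
  refine c3.congr fun w => ?_
  simp only [Function.comp, Real.Lp.fourierTransformCLM_apply, Real.Lp.fourierTransform_apply,
    ContinuousLinearMap.flip_apply, ContinuousLinearMap.holderL_apply_apply, ← ft_eq, ft, KK]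
  refine integral_congr_ae ?_
  filter_upwards [(ContinuousLinearMap.mul ℂ ℂ).coeFn_holder (r := 1)
    (Lp.compMeasurePreserving (s w.re) (measurePreserving_sub_right volume w.re) hg.toLp)
    hg.star.toLp, Lp.coeFn_compMeasurePreserving hg.toLp (measurePreserving_sub_right volume w.re),
    (measurePreserving_sub_right volume w.re).quasiMeasurePreserving.ae hg.coeFn_toLp,
    hg.star.coeFn_toLp] with t e1 e2 e3 e4
  rw [e1, ContinuousLinearMap.mul_apply', e4]
  erw [e2]
  rw [Function.comp, e3, ee, mul_comm, ← mul_assoc]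
  congr 3; simp; ring

lemma KK_neg (g : ℝ → ℂ) (w : ℂ) :
    KK g (-w) = cexp (2 * π * I * w.im * w.re) * conj (KK g w) := by
  rw [KK, KK, ← integral_conj, ← integral_const_mul, ← integral_sub_right_eq_self _ w.re]
  congr 1; funext t
  simp only [map_mul, ← exp_conj, conj_ofReal, conj_I, ← mul_assoc, ← exp_add, map_ofNat, neg_re,
    neg_im, sub_neg_eq_add, sub_add_cancel, conj_conj]
  rw [mul_right_comm]
  congr 3; push_cast; ring

lemma KK_ne {g : ℝ → ℂ} (hg : MemLp g 2 volume) (h0 : ¬g =ᵐ[volume] 0) : KK g 0 ≠ 0 := by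
  intro h
  simp only [KK, zero_im, ofReal_zero, mul_zero, zero_mul, exp_zero, zero_re, sub_zero, one_mul,
    mul_conj', ← ofReal_pow, integral_complex_ofReal, ofReal_eq_zero] at h
  rw [integral_eq_zero_iff_of_nonneg (fun t => by positivity)
    ((memLp_two_iff_integrable_sq_norm hg.1).1 hg)] at h
  exact h0 (h.mono fun t ht => by simpa using ht)

lemma form {g : ℝ → ℂ} (hg : MemLp g 2 volume) (h0 : ¬g =ᵐ[volume] 0)
    (H : ∀ R > 0, ∃ C : ℂ, ∀ b, C * BB g b = ∫ w in ball (0 : ℂ) R, KK g w *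
      ∫ t : ℝ, gs b t * conj (cexp (2 * π * I * w.im * t) * g (t - w.re))) :
    ∃ (n : ℕ) (γ m : ℂ), ∀ b, BB g b =
      γ * (b + 2 * m) ^ n * cexp (b ^ 2 / (8 * π) - conj m / (2 * π) * b) := by
  have hπ : (π : ℂ) ≠ 0 := ofReal_ne_zero.2 Real.pi_ne_zero
  have cK := KK_cont hg
  have dB := BB_diff hg
  have dF : Differentiable ℂ fun b => cexp (-(b ^ 2 / (8 * π))) * BB g b := by fun_prop
  refine (lim (k := fun w => KK g w *
      cexp (-π * I * w.im * w.re - π * (w.re ^ 2 + w.im ^ 2) / 2)) (by fun_prop) (fun w => ?_)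
    (mul_ne_zero (KK_ne hg h0) (exp_ne_zero _)) dF fun R hR => ?_).elim fun l h => ?_
  · rw [KK_neg, mul_right_comm, ← exp_add, mul_comm]
    simp only [map_mul, ← exp_conj, map_sub, map_div₀, map_add, map_pow, map_neg, conj_ofReal,
      conj_I, map_ofNat, neg_re, neg_im]
    congr 2; push_cast; ring
  · obtain ⟨C, hC⟩ := H R hR
    refine ⟨C, fun b => ?_⟩
    rw [mul_left_comm, hC, ← integral_const_mul]
    congr 1; funext w
    rw [BB_sh, mul_left_comm, mul_assoc (KK g w)]
    congr 1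
    simp only [← mul_assoc, ← exp_add]
    congr 2
    have e1 : conj w = w.re - w.im * I := Complex.ext (by simp) (by simp)
    have e2 := re_add_im w
    rw [e1]
    generalize (w.re : ℂ) = x at e2 ⊢
    generalize (w.im : ℂ) = y at e2 ⊢
    subst e2
    field_simp
    ring_nf
    simp only [I_sq]
    ring
  · obtain ⟨m, h⟩ := h
    obtain ⟨n, γ, e⟩ := ode dF h
    refine ⟨n, γ, m, fun b => ?_⟩
    rw [sub_eq_add_neg, add_comm (b ^ 2 / _), exp_add, ← mul_assoc, ← e, mul_right_comm, ← exp_add]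
    simp

/-- derivatives of the Gaussian -/
noncomputable def DD (n : ℕ) : ℝ → ℝ := iteratedDeriv n fun s => Real.exp (-2 * π * s ^ 2)

lemma DD_poly (n : ℕ) : (∃ p : Polynomial ℝ, ∀ t, DD n t = p.eval t * Real.exp (-2 * π * t ^ 2)) ∧
    ∀ t, HasDerivAt (DD n) (DD (n + 1) t) t := by
  have d : ∀ n (t : ℝ), HasDerivAt (DD n) (DD (n + 1) t) t := fun n t => by
    rw [DD, DD, iteratedDeriv_succ]
    exact (ContDiff.differentiable_iteratedDeriv (n := n + 1) n (by fun_prop)
      (by exact_mod_cast n.lt_succ_self) t).hasDerivAt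
  refine ⟨?_, d n⟩
  induction n with
  | zero => exact ⟨1, by simp [DD]⟩
  | succ n ih =>
    obtain ⟨p, hp⟩ := ih
    refine ⟨p.derivative - Polynomial.C (4 * π) * Polynomial.X * p, fun t => ?_⟩
    have e := (p.hasDerivAt t).mul (((hasDerivAt_pow 2 t).const_mul (-2 * π)).exp)
    rw [(d n t).unique (e.congr_of_eventuallyEq (.of_forall hp))]
    simp; ring

lemma DD_int (n : ℕ) (β : ℂ) : Integrable fun t : ℝ => cexp (β * t) * DD n t := by
  obtain ⟨p, hp⟩ := (DD_poly n).1
  simp only [hp]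
  clear hp
  induction p using Polynomial.induction_on' with
  | add p q hp hq => exact (hp.add hq).congr (ae_of_all _ fun t => by simp; ring)
  | monomial k a =>
    have := ((gl (a := 2 * π) (by positivity) (‖β‖ + 1)).const_mul k !).mono'
      (Continuous.aestronglyMeasurable (by fun_prop)) (ae_of_all _ fun t => gle (2 * π) le_rfl t k)
    refine (this.const_mul a).congr (ae_of_all _ fun t => ?_)
    simp only [Polynomial.eval_monomial, exp_add]
    push_cast; ring_nf

lemma DD_ft (n : ℕ) (β : ℂ) : ∫ t : ℝ, cexp (β * t) * DD n t =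
    (-β) ^ n * ((1 / 2) ^ (1 / 2 : ℂ) * cexp (β ^ 2 / (8 * π))) := by
  have hπ : (π : ℂ) ≠ 0 := ofReal_ne_zero.2 Real.pi_ne_zero
  induction n with
  | zero =>
    have := integral_cexp_quadratic (b := -2 * π) (by simp [Real.pi_pos]) β 0
    rw [pow_zero, one_mul]
    convert this using 3
    · simp only [DD, iteratedDeriv_zero, ofReal_exp, ← exp_add]; congr 1; push_cast; ring
    · field_simp
    · field_simp; ring
  | succ n ih =>
    have := integral_eq_zero_of_hasDerivAt_of_integrable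
      (f' := fun t : ℝ => β * (cexp (β * t) * DD n t) + cexp (β * t) * DD (n + 1) t)
      (fun t => ?_) (((DD_int n β).const_mul β).add (DD_int _ β)) (DD_int n β)
    · rw [integral_add ((DD_int n β).const_mul β) (DD_int _ β), integral_const_mul, ih] at this
      linear_combination this
    · refine (((hasDerivAt_id t).ofReal_comp.const_mul β).cexp.mul
        ((DD_poly n).2 t).ofReal_comp).congr_deriv ?_
      simp; ring

theorem main {g : ℝ → ℂ} (hg : MemLp g 2 volume) (h0 : ¬g =ᵐ[volume] 0)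
    (H : ∀ R > 0, ∃ C : ℂ, ∀ b, C * BB g b = ∫ w in ball (0 : ℂ) R, KK g w *
      ∫ t : ℝ, gs b t * conj (cexp (2 * π * I * w.im * t) * g (t - w.re))) :
    ∃ (n : ℕ) (c a : ℂ), c ≠ 0 ∧ g =ᵐ[volume] fun t => c * (cexp (2 * π * I * a.im * t) *
      (Real.exp (π * (t - a.re) ^ 2) * DD n (t - a.re) : ℝ)) := by
  have hπ : (π : ℂ) ≠ 0 := ofReal_ne_zero.2 Real.pi_ne_zero
  obtain ⟨n, γ, m, e⟩ := form hg h0 H
  obtain ⟨a, rfl⟩ : ∃ a : ℂ, m = -π * a := ⟨-m / π, by field_simp⟩
  set h : ℝ → ℂ := fun t => (Real.exp (π * t ^ 2) * DD n t : ℝ)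
  have e1 : ∀ b t, gs b t * conj (h t) = cexp (b * t) * DD n t := fun b t => by
    simp only [h, gs, conj_ofReal]
    push_cast
    rw [← mul_assoc, ← exp_add]; congr 2; ring
  set κ : ℂ := (-1) ^ n * (1 / 2) ^ (1 / 2 : ℂ) *
    cexp (-π * a.re ^ 2 - 2 * π * I * a.im * a.re + π * a ^ 2 / 2)
  have k0 : κ ≠ 0 := mul_ne_zero (mul_ne_zero (by simp) (by simp)) (exp_ne_zero _)
  have e2 : ∀ b, γ / κ * ∫ t : ℝ, gs b t * conj (cexp (2 * π * I * a.im * t) * h (t - a.re)) =
      BB g b := fun b => by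
    rw [BB_sh, e, BB]
    simp only [e1, DD_ft]
    rw [div_mul_eq_mul_div, div_eq_iff k0, neg_pow, show b + 2 * (-π * a) = b - 2 * π * a by ring]
    have : cexp (-π * a.re ^ 2 + b * a.re - 2 * π * I * a.im * a.re) *
        cexp ((b - 2 * π * a) ^ 2 / (8 * π)) = cexp (b ^ 2 / (8 * π) - conj (-π * a) / (2 * π) * b) *
        cexp (-π * a.re ^ 2 - 2 * π * I * a.im * a.re + π * a ^ 2 / 2) := by
      rw [← exp_add, ← exp_add]; congr 1
      rw [re_eq_add_conj]
      simp only [map_mul, map_neg, conj_ofReal]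
      field_simp; ring
    simp only [κ]
    linear_combination (γ * (-1) ^ n * (b - 2 * π * a) ^ n * (1 / 2) ^ (1 / 2 : ℂ)) * this
  have i1 : ∀ b, Integrable fun t : ℝ =>
      gs b t * conj (cexp (2 * π * I * a.im * t) * h (t - a.re)) := fun b => by
    refine (((DD_int n (b - 2 * π * a)).const_mul
      (cexp (-π * a.re ^ 2 + b * a.re - 2 * π * I * a.im * a.re))).comp_sub_right a.re).congr
      (ae_of_all _ fun t => ?_)
    simp only [← e1]
    simp only [gs, map_mul, ← exp_conj, conj_ofReal, conj_I, ← mul_assoc, ← exp_add, map_ofNat]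
    congr 2
    push_cast
    linear_combination (2 * π * (t - a.re)) * re_add_im a
  have j := ((i1 0).const_mul (γ / κ)).sub (BB_int hg 0)
  have key := FU j fun w => by
    have := e2 (-(2 * π * I * w))
    rw [← integral_const_mul, BB, ← sub_eq_zero,
      ← integral_sub ((i1 _).const_mul _) (BB_int hg _)] at this
    refine Eq.trans ?_ this
    rw [ft]
    congr 1; funext t
    have : gs (-(2 * π * I * w)) t = gs 0 t * ee (-(w * t)) := by
      rw [gs, gs, ee, ← exp_add]; congr 1; push_cast; ring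
    rw [this, Pi.sub_apply]; ring
  have e3 : g =ᵐ[volume] fun t => conj (γ / κ) * (cexp (2 * π * I * a.im * t) * h (t - a.re)) := by
    filter_upwards [key] with t ht
    rw [Pi.sub_apply, mul_left_comm, ← mul_sub, Pi.zero_apply, mul_eq_zero, sub_eq_zero] at ht
    have := congrArg conj (ht.resolve_left (exp_ne_zero _))
    rw [map_mul, conj_conj, conj_conj] at this
    exact this.symm
  exact ⟨n, _, a, fun e => h0 (e3.mono fun t ht => by simpa [e] using ht), e3⟩

end Pool.Agent.H.MP_42c7e8_an
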